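import Pool.Agent.H56.CF.Targets

/-!
# Complete family (`MP_347b49_nt`), row RHNF: Hermite normal form of an ideal
-/

set_option autoImplicit false

open NumberField Module
open scoped nonZeroDivisors

namespace Pool.Agent.H27.CF

open Pool.Agent.H28.RC Pool.Agent.H91.CF Pool.Agent.H24.Cls Pool.Agent.H56.CF

section

variable {R : Type*} [CommRing R]

/-- the second coordinates -/
def J1 (Q : Quad R) (I : Ideal R) : Ideal ℤ where
  carrier := {y | ∃ x : ℤ, (x : R) + y * Q.w ∈ I}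
  add_mem' := by
    rintro y y' ⟨x, hx⟩ ⟨x', hx'⟩
    refine ⟨x + x', ?_⟩
    have : ((x + x' : ℤ) : R) + ((y + y' : ℤ) : R) * Q.w =
        ((x : R) + y * Q.w) + ((x' : R) + y' * Q.w) := by push_cast; ring
    rw [this]
    exact I.add_mem hx hx'
  zero_mem' := ⟨0, by simp⟩
  smul_mem' := by
    rintro c y ⟨x, hx⟩
    refine ⟨c * x, ?_⟩
    have : ((c * x : ℤ) : R) + ((c • y : ℤ) : R) * Q.w = (c : R) * ((x : R) + y * Q.w) := by
      rw [smul_eq_mul]; push_cast; ring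
    rw [this]
    exact I.mul_mem_left _ hx

/-- the integers in the ideal -/
def J2 (I : Ideal R) : Ideal ℤ where
  carrier := {x | (x : R) ∈ I}
  add_mem' := by
    intro x x' hx hx'
    show ((x + x' : ℤ) : R) ∈ I
    push_cast
    exact I.add_mem hx hx'
  zero_mem' := by show ((0 : ℤ) : R) ∈ I; simp
  smul_mem' := by
    intro c x hx
    show ((c • x : ℤ) : R) ∈ I
    rw [smul_eq_mul]
    push_cast
    exact I.mul_mem_left _ hx

lemma mul_w (Q : Quad R) (I : Ideal R) {x y : ℤ} (h : (x : R) + y * Q.w ∈ I) :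
    ((-(Q.n * y) : ℤ) : R) + ((x + Q.t * y : ℤ) : R) * Q.w ∈ I := by
  have : ((-(Q.n * y) : ℤ) : R) + ((x + Q.t * y : ℤ) : R) * Q.w = Q.w * ((x : R) + y * Q.w) := by
    push_cast
    linear_combination (-(y : R)) * Q.eqn
  rw [this]
  exact I.mul_mem_left _ h

/-- a natural generator of an ideal of `ℤ` -/
lemma gen_nat (J : Ideal ℤ) {x : ℤ} (hx : x ∈ J) (hx0 : x ≠ 0) :
    ∃ e : ℕ, 1 ≤ e ∧ ∀ y : ℤ, y ∈ J ↔ (e : ℤ) ∣ y := by
  obtain ⟨g, hg⟩ := (IsPrincipalIdealRing.principal J).principal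
  have h1 : ∀ y : ℤ, y ∈ J ↔ g ∣ y := by
    intro y
    rw [hg]
    exact Ideal.mem_span_singleton
  have hg0 : g ≠ 0 := by
    rintro rfl
    exact hx0 (zero_dvd_iff.1 ((h1 x).1 hx))
  refine ⟨g.natAbs, Int.natAbs_pos.2 hg0, fun y => ?_⟩
  rw [h1, Int.natAbs_dvd]

end

/-- HNF: Hermite normal form of an ideal. -/
theorem pf_HNF : T_HNF := by
  intro K _ _ Q I hI
  have hN0 : Ideal.absNorm I ≠ 0 := by
    rwa [Ne, Ideal.absNorm_eq_zero_iff]
  have hNm : ((Ideal.absNorm I : ℤ) : 𝓞 K) ∈ I := by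
    have := Ideal.absNorm_mem I
    exact_mod_cast this
  have hNz : (Ideal.absNorm I : ℤ) ≠ 0 := by exact_mod_cast hN0
  obtain ⟨a, ha1, ha⟩ := gen_nat (J2 I) (x := (Ideal.absNorm I : ℤ)) hNm hNz
  have hN1 : (Ideal.absNorm I : ℤ) ∈ J1 Q I := by
    refine ⟨0, ?_⟩
    have h := mul_w Q I (x := (Ideal.absNorm I : ℤ)) (y := 0) (by simpa using hNm)
    simpa using h
  obtain ⟨e, he1, he⟩ := gen_nat (J1 Q I) hN1 hNz
  obtain ⟨b0, hb0⟩ : (e : ℤ) ∈ J1 Q I := (he _).2 dvd_rfl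
  have haI : ((a : ℤ) : 𝓞 K) ∈ I := (ha a).2 dvd_rfl
  -- `e ∣ a`
  obtain ⟨A, hA⟩ : (e : ℤ) ∣ a := by
    rw [← he]
    refine ⟨0, ?_⟩
    have h := mul_w Q I (x := (a : ℤ)) (y := 0) (by simpa using haI)
    simpa using h
  -- `e ∣ b0`
  obtain ⟨b, hb⟩ : (e : ℤ) ∣ b0 := by
    have h : b0 + Q.t * e ∈ J1 Q I := ⟨_, mul_w Q I hb0⟩
    rw [he] at h
    exact (Int.dvd_add_left (Dvd.intro_left Q.t rfl)).1 h
  have he0 : (e : ℤ) ≠ 0 := by exact_mod_cast (by omega : e ≠ 0)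
  have hA1 : 1 ≤ A := by
    have h1 : (1 : ℤ) ≤ a := by exact_mod_cast ha1
    have h2 : (1 : ℤ) ≤ e := by exact_mod_cast he1
    by_contra h
    push Not at h
    have h3 : A ≤ 0 := by omega
    have : (e : ℤ) * A ≤ 0 := mul_nonpos_of_nonneg_of_nonpos (by omega) h3
    omega
  -- the criterion
  have key : ∀ x y : ℤ, (x : 𝓞 K) + y * Q.w ∈ I ↔
      ∃ x' y' : ℤ, x = e * x' ∧ y = e * y' ∧ A ∣ x' - y' * b := by
    intro x y
    constructor
    · intro h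
      obtain ⟨y', hy'⟩ : (e : ℤ) ∣ y := (he y).1 ⟨x, h⟩
      have h1 : ((x - y' * b0 : ℤ) : 𝓞 K) ∈ I := by
        have : ((x - y' * b0 : ℤ) : 𝓞 K) = ((x : 𝓞 K) + y * Q.w) -
            (y' : 𝓞 K) * ((b0 : 𝓞 K) + ((e : ℤ) : 𝓞 K) * Q.w) := by
          rw [hy']; push_cast; ring
        rw [this]
        exact I.sub_mem h (I.mul_mem_left _ hb0)
      obtain ⟨s, hs⟩ : (a : ℤ) ∣ x - y' * b0 := (ha _).1 h1
      refine ⟨y' * b + A * s, y', ?_, hy', ?_⟩
      · rw [hb, hA] at hs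
        linear_combination hs
      · exact ⟨s, by ring⟩
    · rintro ⟨x', y', rfl, rfl, ⟨s, hs⟩⟩
      have : (((e : ℤ) * x' : ℤ) : 𝓞 K) + (((e : ℤ) * y' : ℤ) : 𝓞 K) * Q.w =
          (y' : 𝓞 K) * ((b0 : 𝓞 K) + ((e : ℤ) : 𝓞 K) * Q.w) + (s : 𝓞 K) * ((a : ℤ) : 𝓞 K) := by
        have hx' : x' = y' * b + A * s := by linear_combination hs
        rw [hb, hA, hx']; push_cast; ring
      rw [this]
      exact I.add_mem (I.mul_mem_left _ hb0) (I.mul_mem_left _ haI)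
  have hAn : ((A.toNat : ℕ) : ℤ) = A := Int.toNat_of_nonneg (by omega)
  refine ⟨e, A.toNat, b, he1, by omega, ?_, ?_, ?_⟩
  · -- the norm
    have hli : LinearIndependent ℤ (![(⟨((a : ℤ) : 𝓞 K), haI⟩ : I),
        ⟨(b0 : 𝓞 K) + ((e : ℤ) : 𝓞 K) * Q.w, hb0⟩] : Fin 2 → I) := by
      rw [Fintype.linearIndependent_iff]
      intro g hg
      rw [Fin.sum_univ_two] at hg
      simp only [Matrix.cons_val_zero, Matrix.cons_val_one] at hg
      have h1 := congrArg (Subtype.val : I → 𝓞 K) hg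
      have h2 : ((g 0 * a + g 1 * b0 : ℤ) : 𝓞 K) + ((g 1 * e : ℤ) : 𝓞 K) * Q.w = 0 := by
        have h3 : (g 0 : 𝓞 K) * ((a : ℤ) : 𝓞 K) + (g 1 : 𝓞 K) *
            ((b0 : 𝓞 K) + ((e : ℤ) : 𝓞 K) * Q.w) = 0 := by
          rw [mul_add]
          simpa [zsmul_eq_mul] using h1
        rw [← h3]; push_cast; ring
      obtain ⟨h4, h5⟩ := Q.ind _ _ h2
      have h6 : g 1 = 0 := by
        rcases mul_eq_zero.1 h5 with h | h
        · exact h
        · exact absurd h he0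
      have h7 : g 0 = 0 := by
        rw [h6, zero_mul, add_zero] at h4
        rcases mul_eq_zero.1 h4 with h | h
        · exact h
        · exact absurd h (by exact_mod_cast (by omega : a ≠ 0))
      intro i
      fin_cases i
      · exact h7
      · exact h6
    have hsp : ⊤ ≤ Submodule.span ℤ (Set.range (![(⟨((a : ℤ) : 𝓞 K), haI⟩ : I),
        ⟨(b0 : 𝓞 K) + ((e : ℤ) : 𝓞 K) * Q.w, hb0⟩] : Fin 2 → I)) := by
      rintro ⟨z, hz⟩ _
      obtain ⟨x, y, hxy⟩ := Q.gen z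
      have h1 := hz
      rw [hxy] at h1
      obtain ⟨x', y', hx, hy, ⟨s, hs⟩⟩ := (key x y).1 h1
      have h2 : (⟨z, hz⟩ : I) = s • (![(⟨((a : ℤ) : 𝓞 K), haI⟩ : I),
          ⟨(b0 : 𝓞 K) + ((e : ℤ) : 𝓞 K) * Q.w, hb0⟩] : Fin 2 → I) 0 +
          y' • (![(⟨((a : ℤ) : 𝓞 K), haI⟩ : I),
          ⟨(b0 : 𝓞 K) + ((e : ℤ) : 𝓞 K) * Q.w, hb0⟩] : Fin 2 → I) 1 := by
        apply Subtype.ext
        have h3 : z = (s : 𝓞 K) * ((a : ℤ) : 𝓞 K) + (y' : 𝓞 K) *
            ((b0 : 𝓞 K) + ((e : ℤ) : 𝓞 K) * Q.w) := by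
          have hx' : x' = y' * b + A * s := by linear_combination hs
          rw [hxy, hx, hy, hb, hA, hx']; push_cast; ring
        rw [mul_add] at h3
        simpa [zsmul_eq_mul] using h3
      rw [h2]
      refine Submodule.add_mem _ (Submodule.smul_mem _ _ (Submodule.subset_span ⟨0, rfl⟩))
        (Submodule.smul_mem _ _ (Submodule.subset_span ⟨1, rfl⟩))
    set bI : Basis (Fin 2) ℤ I := Basis.mk hli hsp with hbI
    have h := Ideal.natAbs_det_basis_change Q.basis I bI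
    have hd : Q.basis.det ((↑) ∘ bI) = (a : ℤ) * e := by
      rw [Module.Basis.det_apply, Matrix.det_fin_two]
      simp only [Module.Basis.toMatrix_apply, Function.comp_apply]
      have e0 : ((bI 0 : I) : 𝓞 K) = ((a : ℤ) : 𝓞 K) + ((0 : ℤ) : 𝓞 K) * Q.w := by
        rw [hbI, Basis.mk_apply]; simp
      have e1 : ((bI 1 : I) : 𝓞 K) = (b0 : 𝓞 K) + ((e : ℤ) : 𝓞 K) * Q.w := by
        rw [hbI, Basis.mk_apply]; simp
      rw [e0, e1, (Q.repr_eq _ _).1, (Q.repr_eq _ _).2, (Q.repr_eq _ _).1, (Q.repr_eq _ _).2]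
      ring
    rw [hd] at h
    rw [← h, hA]
    have : ((e : ℤ) * A * e) = ((e ^ 2 * A.toNat : ℕ) : ℤ) := by
      push_cast
      rw [hAn]; ring
    rw [this, Int.natAbs_natCast]
  · -- the congruence
    rw [hAn]
    obtain ⟨x', y', hx, hy, hd⟩ := (key _ _).1 (mul_w Q I hb0)
    have h1 : x' = -Q.n := by
      have : (e : ℤ) * x' = e * (-Q.n) := by rw [← hx]; ring
      exact mul_left_cancel₀ he0 this
    have h2 : y' = b + Q.t := by
      have : (e : ℤ) * y' = e * (b + Q.t) := by rw [← hy, hb]; ring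
      exact mul_left_cancel₀ he0 this
    rw [h1, h2] at hd
    have : b ^ 2 + Q.t * b + Q.n = -(-Q.n - (b + Q.t) * b) := by ring
    rw [this]
    exact (dvd_neg).2 hd
  · rw [hAn]
    exact key

end Pool.Agent.H27.CF
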