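import Pool.Agent.H56.CF.Targets
import Pool.Agent.H28.RC.Basic

/-!
# Complete family (`MP_347b49_nt`), row RNTH: the values at the principal ideals
-/

set_option autoImplicit false

open NumberField Module
open scoped nonZeroDivisors

namespace Pool.Agent.H27.CF

open Pool.Agent.H28.RC Pool.Agent.H91.CF Pool.Agent.H24.Cls Pool.Agent.H56.CF

section

variable {K : Type} [Field K] [NumberField K]

/-- a nonzero lift -/
lemma lift_ne (f : ℕ) (hf : 1 ≤ f) (r : 𝓞 K ⧸ Ideal.span {(f : 𝓞 K)}) :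
    ∃ a : 𝓞 K, a ≠ 0 ∧ Ideal.Quotient.mk (Ideal.span {(f : 𝓞 K)}) a = r := by
  obtain ⟨a, ha⟩ := Ideal.Quotient.mk_surjective r
  by_cases h : a = 0
  · refine ⟨(f : 𝓞 K), by exact_mod_cast (by omega : f ≠ 0), ?_⟩
    rw [← ha, h, map_zero, Ideal.Quotient.eq_zero_iff_mem]
    exact Ideal.mem_span_singleton_self _
  · exact ⟨a, h, ha⟩

lemma sup_top (f : ℕ) {a c : 𝓞 K}
    (h : Ideal.Quotient.mk (Ideal.span {(f : 𝓞 K)}) (a * c) = 1) :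
    Ideal.span {a} ⊔ Ideal.span {(f : 𝓞 K)} = ⊤ := by
  rw [← map_one (Ideal.Quotient.mk (Ideal.span {(f : 𝓞 K)})), Ideal.Quotient.eq] at h
  rw [Ideal.eq_top_iff_one]
  have h1 : (1 : 𝓞 K) = a * c - (a * c - 1) := by ring
  rw [h1]
  refine Ideal.sub_mem _ ?_ ?_
  · exact Ideal.mem_sup_left (Ideal.mul_mem_right _ _ (Ideal.mem_span_singleton_self _))
  · exact Ideal.mem_sup_right h

/-- the value with the sign -/
noncomputable def Gv (χ : RCC K) (a : 𝓞 K) : ℂ := χ.ψ (Ideal.span {a}) * sg K χ.S (a : K)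

lemma coe_ne {a : 𝓞 K} (h : a ≠ 0) : (a : K) ≠ 0 := by
  simpa using h

/-- the value at the product -/
lemma Gv_one (f : ℕ) (χ : RCC K) (hχ : χ.f = Ideal.span {(f : 𝓞 K)}) {a c : 𝓞 K} (ha : a ≠ 0)
    (hc : c ≠ 0) (h : Ideal.Quotient.mk (Ideal.span {(f : 𝓞 K)}) (a * c) = 1) :
    Gv χ a * Gv χ c = 1 := by
  have h1 : a * c - 1 ∈ χ.f := by
    rw [hχ]
    rwa [← map_one (Ideal.Quotient.mk (Ideal.span {(f : 𝓞 K)})), Ideal.Quotient.eq] at h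
  have h2 := χ.princ (a * c) (mul_ne_zero ha hc) h1
  rw [← Ideal.span_singleton_mul_span_singleton, χ.map_mul] at h2
  have e : (((a * c : 𝓞 K)) : K) = (a : K) * (c : K) := rfl
  rw [e, sg_mul χ.S (coe_ne ha) (coe_ne hc)] at h2
  unfold Gv
  have s1 := sg_sq χ.S (a : K)
  have s2 := sg_sq χ.S (c : K)
  calc χ.ψ (Ideal.span {a}) * sg K χ.S (a : K) * (χ.ψ (Ideal.span {c}) * sg K χ.S (c : K))
      = (χ.ψ (Ideal.span {a}) * χ.ψ (Ideal.span {c})) *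
        (sg K χ.S (a : K) * sg K χ.S (c : K)) := by ring
    _ = (sg K χ.S (a : K) * sg K χ.S (a : K)) * (sg K χ.S (c : K) * sg K χ.S (c : K)) := by
        rw [h2]; ring
    _ = 1 := by rw [s1, s2, one_mul]

/-- the value depends only on the residue -/
lemma Gv_congr (f : ℕ) (hf : 1 ≤ f) (χ : RCC K) (hχ : χ.f = Ideal.span {(f : 𝓞 K)}) {a b : 𝓞 K}
    (ha : a ≠ 0) (hb : b ≠ 0) (u : (𝓞 K ⧸ Ideal.span {(f : 𝓞 K)})ˣ)
    (h1 : (u : 𝓞 K ⧸ Ideal.span {(f : 𝓞 K)}) = Ideal.Quotient.mk _ a)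
    (h2 : (u : 𝓞 K ⧸ Ideal.span {(f : 𝓞 K)}) = Ideal.Quotient.mk _ b) :
    Gv χ a = Gv χ b := by
  obtain ⟨c, hc, hcu⟩ := lift_ne f hf ((u⁻¹ : (𝓞 K ⧸ Ideal.span {(f : 𝓞 K)})ˣ) :
    𝓞 K ⧸ Ideal.span {(f : 𝓞 K)})
  have e1 := Gv_one f χ hχ ha hc (by rw [map_mul, ← h1, hcu, Units.mul_inv])
  have e2 := Gv_one f χ hχ hb hc (by rw [map_mul, ← h2, hcu, Units.mul_inv])
  have hne : Gv χ c ≠ 0 := by
    intro h
    rw [h, mul_zero] at e1
    exact zero_ne_one e1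
  exact mul_right_cancel₀ hne (e1.trans e2.symm)

lemma Gv_mul (χ : RCC K) {a b : 𝓞 K} (ha : a ≠ 0) (hb : b ≠ 0) :
    Gv χ (a * b) = Gv χ a * Gv χ b := by
  unfold Gv
  rw [← Ideal.span_singleton_mul_span_singleton, χ.map_mul]
  have e : (((a * b : 𝓞 K)) : K) = (a : K) * (b : K) := rfl
  rw [e, sg_mul χ.S (coe_ne ha) (coe_ne hb)]
  ring

lemma Gv_ne (f : ℕ) (hf : 1 ≤ f) (χ : RCC K) (hχ : χ.f = Ideal.span {(f : 𝓞 K)}) {a : 𝓞 K}
    (ha : a ≠ 0) (u : (𝓞 K ⧸ Ideal.span {(f : 𝓞 K)})ˣ)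
    (h1 : (u : 𝓞 K ⧸ Ideal.span {(f : 𝓞 K)}) = Ideal.Quotient.mk _ a) : Gv χ a ≠ 0 := by
  obtain ⟨c, hc, hcu⟩ := lift_ne f hf ((u⁻¹ : (𝓞 K ⧸ Ideal.span {(f : 𝓞 K)})ˣ) :
    𝓞 K ⧸ Ideal.span {(f : 𝓞 K)})
  have e1 := Gv_one f χ hχ ha hc (by rw [map_mul, ← h1, hcu, Units.mul_inv])
  intro h
  rw [h, zero_mul] at e1
  exact zero_ne_one e1

lemma sg_nat (S : Finset (RP K)) (n : ℕ) (hn : 1 ≤ n) : sg K S ((n : 𝓞 K) : K) = 1 := by
  rw [sg_eq]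
  refine Finset.prod_eq_one fun v _ => ?_
  unfold sg1 re
  have e : (((n : 𝓞 K)) : K) = (n : K) := map_natCast _ n
  rw [e, map_natCast, if_pos (by exact_mod_cast hn)]

/-- a chosen lift -/
noncomputable def au (f : ℕ) (hf : 1 ≤ f) (u : (𝓞 K ⧸ Ideal.span {(f : 𝓞 K)})ˣ) : 𝓞 K :=
  (lift_ne f hf (u : 𝓞 K ⧸ Ideal.span {(f : 𝓞 K)})).choose

lemma au_ne (f : ℕ) (hf : 1 ≤ f) (u : (𝓞 K ⧸ Ideal.span {(f : 𝓞 K)})ˣ) : au f hf u ≠ 0 :=
  (lift_ne f hf (u : 𝓞 K ⧸ Ideal.span {(f : 𝓞 K)})).choose_spec.1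

lemma au_mk (f : ℕ) (hf : 1 ≤ f) (u : (𝓞 K ⧸ Ideal.span {(f : 𝓞 K)})ˣ) :
    (u : 𝓞 K ⧸ Ideal.span {(f : 𝓞 K)}) = Ideal.Quotient.mk _ (au f hf u) :=
  (lift_ne f hf (u : 𝓞 K ⧸ Ideal.span {(f : 𝓞 K)})).choose_spec.2.symm

/-- the character of the unit group -/
noncomputable def th0 (f : ℕ) (hf : 1 ≤ f) (χ : RCC K) (hχ : χ.f = Ideal.span {(f : 𝓞 K)}) :
    (𝓞 K ⧸ Ideal.span {(f : 𝓞 K)})ˣ →* ℂˣ :=
  MonoidHom.mk' (fun u => Units.mk0 (Gv χ (au f hf u)) (Gv_ne f hf χ hχ (au_ne f hf u) u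
    (au_mk f hf u))) (by
      intro u v
      ext
      simp only [Units.val_mk0, Units.val_mul]
      rw [← Gv_mul χ (au_ne f hf u) (au_ne f hf v)]
      refine Gv_congr f hf χ hχ (au_ne f hf _) (mul_ne_zero (au_ne f hf u) (au_ne f hf v)) (u * v)
        (au_mk f hf _) ?_
      rw [map_mul, ← au_mk f hf u, ← au_mk f hf v, Units.val_mul])

lemma th0_apply (f : ℕ) (hf : 1 ≤ f) (χ : RCC K) (hχ : χ.f = Ideal.span {(f : 𝓞 K)})
    (u : (𝓞 K ⧸ Ideal.span {(f : 𝓞 K)})ˣ) :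
    ((th0 f hf χ hχ u : ℂˣ) : ℂ) = Gv χ (au f hf u) := rfl

end

/-- NTH: the values at the principal ideals. -/
theorem pf_NTH : T_NTH := by
  intro K _ _ f hf χ hR
  obtain ⟨htr, hχ⟩ := hR
  have hker : ∀ u ∈ VF K f, th0 f hf χ hχ u = 1 := by
    intro u hu
    have hle : VF K f ≤ (th0 f hf χ hχ).ker := by
      unfold VF
      rw [Subgroup.closure_le]
      rintro v ⟨n, hn⟩
      rw [SetLike.mem_coe, MonoidHom.mem_ker]
      ext
      rw [th0_apply, Units.val_one]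
      rcases Nat.eq_zero_or_pos n with h0 | h0
      · -- the quotient is trivial
        have hz : (v : 𝓞 K ⧸ Ideal.span {(f : 𝓞 K)}) = 0 := by
          rw [hn, h0, Nat.cast_zero, map_zero]
        have h01 : (0 : 𝓞 K ⧸ Ideal.span {(f : 𝓞 K)}) = 1 := by
          have := v.mul_inv
          rw [hz, zero_mul] at this
          exact this
        have e1 : Gv χ (au f hf v) = Gv χ 1 := by
          refine Gv_congr f hf χ hχ (au_ne f hf v) one_ne_zero v (au_mk f hf v) ?_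
          rw [map_one, hz, h01]
        rw [e1]
        unfold Gv
        rw [Ideal.span_singleton_one, χ.map_one]
        have : ((1 : 𝓞 K) : K) = 1 := rfl
        rw [this, sg_one, one_mul]
      · have hnne : (n : 𝓞 K) ≠ 0 := by exact_mod_cast (by omega : n ≠ 0)
        have e1 : Gv χ (au f hf v) = Gv χ (n : 𝓞 K) :=
          Gv_congr f hf χ hχ (au_ne f hf v) hnne v (au_mk f hf v) hn
        rw [e1]
        unfold Gv
        rw [sg_nat χ.S n h0, mul_one]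
        refine htr n h0 ?_
        rw [hχ]
        obtain ⟨c, hc, hcu⟩ := lift_ne f hf ((v⁻¹ : (𝓞 K ⧸ Ideal.span {(f : 𝓞 K)})ˣ) :
          𝓞 K ⧸ Ideal.span {(f : 𝓞 K)})
        exact sup_top f (c := c) (by rw [map_mul, ← hn, hcu, Units.mul_inv])
    exact MonoidHom.mem_ker.1 (hle hu)
  refine ⟨QuotientGroup.lift (VF K f) (th0 f hf χ hχ) hker, ?_⟩
  intro a u ha hu
  have e1 : QuotientGroup.lift (VF K f) (th0 f hf χ hχ) hker (QuotientGroup.mk u) =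
      th0 f hf χ hχ u := QuotientGroup.lift_mk' _ _ _
  rw [e1, th0_apply, Gv_congr f hf χ hχ (au_ne f hf u) ha u (au_mk f hf u) hu]
  unfold Gv
  have s1 := sg_sq χ.S (a : K)
  calc χ.ψ (Ideal.span {a}) = χ.ψ (Ideal.span {a}) * (sg K χ.S (a : K) * sg K χ.S (a : K)) := by
        rw [s1, mul_one]
    _ = _ := by ring

end Pool.Agent.H27.CF
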