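import Pool.Agent.H91.CF.TA

/-!
# Complete family (`MP_347b49_nt`), row ALCU: the local means at a prime which does not divide
the conductor
-/

set_option autoImplicit false

open MeasureTheory Set Filter
open Pool.Agent.H31.CN Pool.Agent.H91.CF
open Pool.Agent.H96.CN (Av Per2 kk kx df sum_df tot_df one_le_kk kk_two)
open scoped Real

namespace Pool.Agent.H27.CF

/-- the number of roots modulo `p` -/
noncomputable def rA (k : ℕ) (τ : ℤ) : ℝ := if k = 0 then 1 + τ else if k = 1 then τ else 1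

/-- the number of roots modulo `p ^ 2` -/
noncomputable def r2 (k : ℕ) (τ : ℤ) : ℝ :=
  if k = 0 then (if τ = 0 then 0 else 1 + τ) else if k = 1 then τ else 1

/-- the number of roots of the form divided by `p` -/
noncomputable def rP (k : ℕ) (τ : ℤ) : ℝ := if k = 1 then 1 + τ else 1

/-- the density of the type -/
noncomputable def dk (p k : ℕ) (τ : ℤ) : ℝ :=
  if k = 0 then dd p τ else if τ = 1 then ((p : ℝ) - 1) / p else
    if τ = 0 ∧ k = 1 then ((p : ℝ) - 1) / (p : ℝ) ^ 2 else 0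

/-- the value of the weight -/
noncomputable def VV (p t k i : ℕ) (τ : ℤ) : ℝ :=
  if t = 0 then (1 + (τ : ℝ) / p) ^ 2 else
    if t = 1 then -(1 + (τ : ℝ) / p) *
      ((if 1 ≤ k then 1 else 0) + (if 1 ≤ i then rA k τ else 0)) else
    (if k = 2 then 1 else 0) + (if 1 ≤ k ∧ 1 ≤ i then rP k τ else 0) +
      (if 1 ≤ i then rA k τ else 0) + (if i = 2 then r2 k τ else 0)

/-- the mean -/
noncomputable def Mt (p : ℕ) (lam : ℤ → ℝ) (t k i : ℕ) : ℝ :=
  lam (-1) * VV p t k i (-1) * dk p k (-1) + lam 0 * VV p t k i 0 * dk p k 0 +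
    lam 1 * VV p t k i 1 * dk p k 1

lemma dk_eq (p A : ℕ) (τ : ℤ) : ddA p A τ = dk p (kk p A) τ := by
  unfold ddA dk kk
  by_cases h2 : p ^ 2 ∣ A
  · have h1 : p ∣ A := (dvd_pow_self p (by norm_num)).trans h2
    by_cases ht : τ = 1
    · simp [h1, h2, ht]
    · simp [h1, h2, ht]
  · by_cases h1 : p ∣ A
    · by_cases ht : τ = 1
      · simp [h1, h2, ht]
      · simp [h1, h2, ht]
    · simp [h1, h2]

/-- the values of the weight in terms of the type -/
lemma VV_eq {p A e t : ℕ} {B C Δ : ℤ} (ht : t ≤ 2) (hτ : ch p Δ ∈ ({-1, 0, 1} : Finset ℤ))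
    (h : LUs p A B C Δ) :
    (if t = 0 then (1 + (ch p Δ : ℝ) / p) ^ 2 else
      if t = 1 then -(1 + (ch p Δ : ℝ) / p) * N1 p A B C e else (N2 p A B C e : ℝ)) =
      VV p t (kk p A) (kk p e) (ch p Δ) := by
  obtain ⟨h0, h1, h2⟩ := h
  unfold VV
  by_cases t0 : t = 0
  · rw [if_pos t0, if_pos t0]
  rw [if_neg t0, if_neg t0]
  have key : (N1 p A B C e : ℝ) = (if 1 ≤ kk p A then 1 else 0) +
      (if 1 ≤ kk p e then rA (kk p A) (ch p Δ) else 0) ∧
      (N2 p A B C e : ℝ) = (if kk p A = 2 then 1 else 0) +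
        (if 1 ≤ kk p A ∧ 1 ≤ kk p e then rP (kk p A) (ch p Δ) else 0) +
      (if 1 ≤ kk p e then rA (kk p A) (ch p Δ) else 0) +
        (if kk p e = 2 then r2 (kk p A) (ch p Δ) else 0) := by
    simp only [one_le_kk, kk_two]
    unfold N1 N2
    by_cases hA2 : p ^ 2 ∣ A
    · have hA1 : p ∣ A := (dvd_pow_self p (by norm_num)).trans hA2
      obtain ⟨-, e1, e2, e3⟩ := h2 hA2
      have hk : kk p A = 2 := (kk_two p A).2 hA2
      rw [hk, e1, e2, e3]
      unfold rA r2 rP
      constructor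
      · simp [hA1]
      · simp [hA1, hA2]
    · by_cases hA1 : p ∣ A
      · have hk : kk p A = 1 := by
          unfold kk
          rw [if_neg hA2, if_pos hA1]
        rw [hk]
        unfold rA r2 rP
        rcases h1 hA1 hA2 with ⟨c, e1, e2, e3⟩ | ⟨c, e1, e2, e3⟩
        · rw [c, e1, e2, e3]
          constructor
          · simp [hA1]
          · simp only [hA1, hA2]
            push_cast
            simp
            norm_num
        · rw [c, e1, e2, e3]
          constructor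
          · simp [hA1]
          · simp only [hA1, hA2]
            push_cast
            simp
      · have hk : kk p A = 0 := by
          unfold kk
          rw [if_neg hA2, if_neg hA1]
        obtain ⟨e1, e2⟩ := h0 hA1
        have e1' : (nrt p A B C : ℝ) = 1 + (ch p Δ : ℝ) := by exact_mod_cast e1
        have e2' : (nrt (p ^ 2) A B C : ℝ) = if ch p Δ = 0 then 0 else 1 + (ch p Δ : ℝ) := by
          have : ((nrt (p ^ 2) A B C : ℤ) : ℝ) =
              ((if ch p Δ = 0 then 0 else 1 + ch p Δ : ℤ) : ℝ) := by rw [e2]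
          push_cast at this
          exact this
        rw [hk]
        unfold rA r2 rP
        push_cast
        rw [e1', e2']
        constructor
        · simp [hA1]
        · simp [hA1, hA2]
  rw [key.1, key.2]

open Classical in
lemma wlo_sum {f p : ℕ} (hpf : ¬ p ∣ f) (hp : p.Prime) (hTPR : T_TPR) (hLUO : T_LUO)
    (hLU2 : T_LU2) (lam : ℤ → ℝ) {t e A : ℕ} (ht : t ≤ 2) (hA : 1 ≤ A) (B C : ℤ) :
    wlo f p lam t e A B C =
      lam (-1) * VV p t (kk p A) (kk p e) (-1) * (if gdp p (4 * A * C - B ^ 2) ∧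
        ch p (4 * A * C - B ^ 2) = -1 then 1 else 0) +
      lam 0 * VV p t (kk p A) (kk p e) 0 * (if gdp p (4 * A * C - B ^ 2) ∧
        ch p (4 * A * C - B ^ 2) = 0 then 1 else 0) +
      lam 1 * VV p t (kk p A) (kk p e) 1 * (if gdp p (4 * A * C - B ^ 2) ∧
        ch p (4 * A * C - B ^ 2) = 1 then 1 else 0) := by
  unfold wlo
  rw [if_neg hpf]
  by_cases hg : gdp p (4 * A * C - B ^ 2)
  · rw [if_pos hg]
    have hτ := (hTPR p (4 * A * C - B ^ 2) (4 * A * C - B ^ 2) hp (by simp)).2.2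
    have hL : LUs p A B C (4 * A * C - B ^ 2) := by
      by_cases h2 : p = 2
      · subst h2
        exact hLU2 A B C _ hA rfl hg
      · exact hLUO p A B C _ hp h2 hA rfl hg
    rw [VV_eq ht hτ hL]
    simp only [Finset.mem_insert, Finset.mem_singleton] at hτ
    rcases hτ with h | h | h
    · rw [h]; simp [hg]
    · rw [h]; simp [hg]
    · rw [h]; simp [hg]
  · rw [if_neg hg]
    simp [hg]

lemma Av_lin3 (q : ℕ) (a b c : ℝ) (f g h : ℤ → ℤ → ℝ) :
    Av q (fun B C => a * f B C + b * g B C + c * h B C) = a * Av q f + b * Av q g + c * Av q h := by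
  unfold Av
  simp only [Finset.sum_add_distrib, ← Finset.mul_sum]
  ring

lemma tot_eq (p : ℕ) (hp : p.Prime) (lam : ℤ → ℝ) (x : ℝ) (hx : x = 1 / (p : ℝ)) :
    (1 - x) * ((1 - x) * (Mt p lam 0 0 0 + 2 * Mt p lam 1 0 0 + Mt p lam 2 0 0) +
      (x * (1 - x)) * (Mt p lam 0 0 1 + 2 * Mt p lam 1 0 1 + Mt p lam 2 0 1) +
      x ^ 2 * (Mt p lam 0 0 2 + 2 * Mt p lam 1 0 2 + Mt p lam 2 0 2)) +
    (x * (1 - x)) * ((1 - x) * (Mt p lam 0 1 0 + 2 * Mt p lam 1 1 0 + Mt p lam 2 1 0) +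
      (x * (1 - x)) * (Mt p lam 0 1 1 + 2 * Mt p lam 1 1 1 + Mt p lam 2 1 1) +
      x ^ 2 * (Mt p lam 0 1 2 + 2 * Mt p lam 1 1 2 + Mt p lam 2 1 2)) +
    x ^ 2 * ((1 - x) * (Mt p lam 0 2 0 + 2 * Mt p lam 1 2 0 + Mt p lam 2 2 0) +
      (x * (1 - x)) * (Mt p lam 0 2 1 + 2 * Mt p lam 1 2 1 + Mt p lam 2 2 1) +
      x ^ 2 * (Mt p lam 0 2 2 + 2 * Mt p lam 1 2 2 + Mt p lam 2 2 2)) =
    (1 - 1 / (p : ℝ)) ^ 3 * (lam (-1) * dd p (-1) + lam 0 * dd p 0 + lam 1 * dd p 1) := by
  have hp0 : (p : ℝ) ≠ 0 := by exact_mod_cast hp.ne_zero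
  subst hx
  unfold Mt VV dk rA r2 rP dd
  norm_num
  field_simp
  ring

/-- (LCU) the local means at a prime which does not divide the conductor. -/
theorem pf_LCU (hTPR : T_TPR) (hLUO : T_LUO) (hLU2 : T_LU2) (hDNS : T_DNS) (hDN2 : T_DN2) :
    T_LCU := by
  intro f p lam hf hp hpf
  have hq : qlp f p = ql p := by
    unfold qlp
    rw [if_neg hpf]
  have hDN : ∀ A : ℕ, 1 ≤ A → ∀ τ ∈ ({-1, 0, 1} : Finset ℤ), open Classical in
      Av (ql p) (fun B C => if gdp p (4 * A * C - B ^ 2) ∧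
        ch p (4 * A * C - B ^ 2) = τ then 1 else 0) = dk p (kk p A) τ := by
    intro A hA τ hτ
    rw [← dk_eq]
    by_cases h2 : p = 2
    · subst h2
      exact hDN2 A τ hA hτ
    · exact hDNS p A τ hp h2 hA hτ
  have hM : ∀ t, t ≤ 2 → ∀ e A, 1 ≤ A →
      Av (qlp f p) (wlo f p lam t e A) = Mt p lam t (kk p A) (kk p e) := by
    intro t ht e A hA
    rw [hq]
    have h1 := funext fun B => funext fun C =>
      wlo_sum (e := e) hpf hp hTPR hLUO hLU2 lam ht hA B C
    have h2 : (fun B C => wlo f p lam t e A B C) = wlo f p lam t e A := rfl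
    rw [← h2, h1, Av_lin3, hDN A hA (-1) (by simp), hDN A hA 0 (by simp),
      hDN A hA 1 (by simp)]
    rfl
  refine ⟨fun t y => df (Mt p lam t) (kx p y.1) (kx p y.2), ?_, ?_⟩
  · intro t ht e A he hA
    rw [hM t ht e A hA]
    unfold Ip
    rw [sum_df p hp (Mt p lam t) A e]
  · unfold Ip
    have h1 := tot_df p hp (Mt p lam 0) (Mt p lam 1) (Mt p lam 2) (1 / (p : ℝ)) rfl
    rw [h1, tot_eq p hp lam (1 / (p : ℝ)) rfl]
    congr 1
    rw [Finset.sum_insert (by decide), Finset.sum_insert (by decide), Finset.sum_singleton]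
    ring

end Pool.Agent.H27.CF
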