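import Pool.Agent.H91.CF.TA

/-!
# Complete family (`MP_347b49_nt`), row AWFE: the weight is the product of the local weights
-/

set_option autoImplicit false

open MeasureTheory Set Filter
open Pool.Agent.H31.CN Pool.Agent.H91.CF
open Pool.Agent.H96.CN (Av Per2)
open scoped Real

namespace Pool.Agent.H27.CF

lemma div_sqp {f p : ℕ} (hp : p.Prime) (hf1 : f1 f ≠ 0)
    (hfac : (f1 f).factorization p = f.factorization p - 1) (D0 : ℤ) :
    ∃ v : ℤ, ¬ (p : ℤ) ∣ v ∧ sqp f p ∣ (f1 f : ℤ) ^ 2 * D0 ∧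
      (f1 f : ℤ) ^ 2 * D0 / sqp f p = v ^ 2 * D0 := by
  have h1 := Nat.ordProj_mul_ordCompl_eq_self (f1 f) p
  rw [hfac] at h1
  have hnd := Nat.not_dvd_ordCompl hp hf1
  rw [hfac] at hnd
  set v : ℕ := f1 f / p ^ (f.factorization p - 1) with hv
  have h2 : (f1 f : ℤ) = (p : ℤ) ^ (f.factorization p - 1) * (v : ℤ) := by
    rw [← h1]; push_cast; rfl
  have h3 : (f1 f : ℤ) ^ 2 * D0 = sqp f p * ((v : ℤ) ^ 2 * D0) := by
    rw [h2]
    unfold sqp
    rw [mul_pow, ← pow_mul, mul_comm (f.factorization p - 1) 2]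
    ring
  have hs : sqp f p ≠ 0 := by
    unfold sqp
    exact pow_ne_zero _ (by exact_mod_cast hp.ne_zero)
  refine ⟨v, by exact_mod_cast hnd, ⟨_, h3⟩, ?_⟩
  rw [h3, Int.mul_ediv_cancel_left _ hs]

open Classical in
lemma wlo_f {f p : ℕ} (h : p ∣ f) (lam : ℤ → ℝ) (t e A : ℕ) (B C : ℤ) :
    wlo f p lam t e A B C =
      if sqp f p ∣ 4 * A * C - B ^ 2 ∧ gdp p ((4 * A * C - B ^ 2) / sqp f p) ∧ ¬ p ∣ e ∧ ¬ p ∣ A ∧
        (t = 0 ∨ ¬ (p : ℤ) ∣ C) then
      lam (ch p ((4 * A * C - B ^ 2) / sqp f p)) *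
        (if t = 0 then
          1 - 1 / (npt f p (ch p ((4 * A * C - B ^ 2) / sqp f p)) : ℝ)
        else -(1 / (npt f p (ch p ((4 * A * C - B ^ 2) / sqp f p)) : ℝ)))
      else 0 := by
  unfold wlo
  rw [if_pos h]

open Classical in
lemma wlo_n {f p : ℕ} (h : ¬ p ∣ f) (lam : ℤ → ℝ) (t e A : ℕ) (B C : ℤ) :
    wlo f p lam t e A B C =
      if gdp p (4 * A * C - B ^ 2) then
      lam (ch p (4 * A * C - B ^ 2)) *
        (if t = 0 then (1 + (ch p (4 * A * C - B ^ 2) : ℝ) / p) ^ 2 else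
          if t = 1 then -(1 + (ch p (4 * A * C - B ^ 2) : ℝ) / p) *
            N1 p A B C e else (N2 p A B C e : ℝ))
      else 0 := by
  unfold wlo
  rw [if_neg h]

/-- (WFE) the weight is the product of the local weights. -/
theorem pf_WFE (hTYP : T_TYP) (hRDF : T_RDF) : T_WFE := by
  intro N f lam n₁ n₂ d e A B C hf hN hN2 hsq hfN h₁ h₂ hd he hA
  obtain ⟨rsq, rpf, rmul, rN, nfmul, nfcop, nfsq, nfpf, ffac, sqprod, -, -, -⟩ :=
    hRDF N f hf hsq hfN
  have hN0 : N ≠ 0 := by omega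
  have hf0 : f ≠ 0 := by omega
  have hf1 : f1 f ≠ 0 := by
    intro h
    rw [h, mul_zero] at rmul
    exact hf0 rmul.symm
  have hrd0 : rd f ≠ 0 := by
    intro h
    rw [h, zero_mul] at rmul
    exact hf0 rmul.symm
  have hd0 : d ≠ 0 := fun h => hrd0 (by rw [h] at hd; exact Nat.eq_zero_of_zero_dvd hd)
  have hnf0 : nf N f ≠ 0 := by
    intro h
    rw [h, zero_mul] at nfmul
    exact hN0 nfmul.symm
  have hn₁ : n₁ ≠ 0 := fun h => hnf0 (by rw [h] at h₁; exact Nat.eq_zero_of_zero_dvd h₁)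
  have hn₂ : n₂ ≠ 0 := fun h => hnf0 (by rw [h] at h₂; exact Nat.eq_zero_of_zero_dvd h₂)
  have hprd : ∀ p : ℕ, p.Prime → (p ∣ rd f ↔ p ∣ f) := by
    intro p hp
    have h := congrArg (fun s : Finset ℕ => p ∈ s) rpf
    simp only [Nat.mem_primeFactors, eq_iff_iff] at h
    constructor
    · intro h1
      exact (h.1 ⟨hp, h1, hrd0⟩).2.1
    · intro h1
      exact (h.2 ⟨hp, h1, hf0⟩).2.1
  have hpd : ∀ p : ℕ, p.Prime → p ∣ d → p ∣ f := fun p hp h => (hprd p hp).1 (h.trans hd)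
  have hmemN : ∀ p : ℕ, p.Prime → p ∣ f → p ∈ N.primeFactors := fun p hp h =>
    Nat.mem_primeFactors.2 ⟨hp, hfN p hp h, hN0⟩
  -- a vanishing factor
  have vanish : (∃ p ∈ N.primeFactors, wlo f p (lam p) (sta f n₁ n₂ d p) e A B C = 0) →
      ∏ p ∈ N.primeFactors, wlo f p (lam p) (sta f n₁ n₂ d p) e A B C = 0 := by
    rintro ⟨p, hp, h⟩
    exact Finset.prod_eq_zero hp h
  by_cases hcop : IsCoprime C (d : ℤ)
  swap
  · rw [if_neg hcop]
    symm
    apply vanish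
    have h1 : Int.gcd C d ≠ 1 := fun h => hcop (Int.isCoprime_iff_gcd_eq_one.2 h)
    obtain ⟨p, hp, hpg⟩ := Nat.exists_prime_and_dvd h1
    have hpC : (p : ℤ) ∣ C := (Int.natCast_dvd_natCast.2 hpg).trans (Int.gcd_dvd_left _ _)
    have hpd' : p ∣ d := by
      have := (Int.natCast_dvd_natCast.2 hpg).trans (Int.gcd_dvd_right C (d : ℤ))
      exact_mod_cast this
    have hpf := hpd p hp hpd'
    refine ⟨p, hmemN p hp hpf, ?_⟩
    rw [wlo_f hpf, if_neg]
    rintro ⟨-, -, -, -, h⟩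
    unfold sta at h
    rw [if_pos hpf, if_pos hpd'] at h
    rcases h with h | h
    · exact one_ne_zero h
    · exact h hpC
  rw [if_pos hcop]
  unfold wf
  by_cases hu : (f1 f : ℤ) ^ 2 ∣ 4 * A * C - B ^ 2
  swap
  · rw [if_neg (fun h => hu h.1)]
    symm
    apply vanish
    by_contra hcon
    push Not at hcon
    apply hu
    rw [← sqprod]
    refine Finset.prod_dvd_of_coprime ?_ ?_
    · intro p hp r hr hpr
      have hp' := Nat.prime_of_mem_primeFactors hp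
      have hr' := Nat.prime_of_mem_primeFactors hr
      unfold sqp
      refine IsCoprime.pow ?_
      exact Nat.isCoprime_iff_coprime.2 ((Nat.coprime_primes hp' hr').2 hpr)
    · intro p hp
      have hp' := Nat.prime_of_mem_primeFactors hp
      have hpf : p ∣ f := Nat.dvd_of_mem_primeFactors hp
      by_contra hnd
      refine hcon p (hmemN p hp' hpf) ?_
      rw [wlo_f hpf, if_neg (fun h => hnd h.1)]
  obtain ⟨D0, hD0⟩ := hu
  have hu2 : (f1 f : ℤ) ^ 2 ≠ 0 := pow_ne_zero _ (by exact_mod_cast hf1)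
  have hdiv : (4 * A * C - B ^ 2) / (f1 f : ℤ) ^ 2 = D0 := by
    rw [hD0, Int.mul_ediv_cancel_left _ hu2]
  rw [hdiv]
  -- local data
  have locf : ∀ p : ℕ, p.Prime → p ∣ f → sqp f p ∣ 4 * A * C - B ^ 2 ∧
      ch p ((4 * A * C - B ^ 2) / sqp f p) = ch p D0 ∧
      (gdp p ((4 * A * C - B ^ 2) / sqp f p) ↔ gdp p D0) := by
    intro p hp _
    obtain ⟨v, hv, h1, h2⟩ := div_sqp hp hf1 (ffac p hp) D0
    obtain ⟨h3, h4⟩ := hTYP p v D0 hp hv
    rw [hD0]
    refine ⟨h1, ?_, ?_⟩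
    · rw [h2, h3]
    · rw [h2, h4]
  have locn : ∀ p : ℕ, p.Prime → ¬ p ∣ f → ch p (4 * A * C - B ^ 2) = ch p D0 ∧
      (gdp p (4 * A * C - B ^ 2) ↔ gdp p D0) := by
    intro p hp hpf
    have hpu : ¬ (p : ℤ) ∣ (f1 f : ℤ) := by
      intro h
      have h' : p ∣ f1 f := by exact_mod_cast h
      exact hpf (by rw [← rmul]; exact Dvd.dvd.mul_left h' _)
    rw [hD0]
    exact hTYP p (f1 f) D0 hp hpu
  by_cases hg : gdN N D0
  swap
  · rw [if_neg (fun h => hg h.2.1)]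
    symm
    apply vanish
    unfold gdN at hg
    push Not at hg
    obtain ⟨p, hp, hgp⟩ := hg
    have hp' := Nat.prime_of_mem_primeFactors hp
    refine ⟨p, hp, ?_⟩
    by_cases hpf : p ∣ f
    · rw [wlo_f hpf, if_neg]
      rintro ⟨-, h, -⟩
      exact hgp ((locf p hp' hpf).2.2.1 h)
    · rw [wlo_n hpf, if_neg]
      intro h
      exact hgp ((locn p hp' hpf).2.1 h)
  by_cases hc : Nat.Coprime (e * A) f
  swap
  · rw [if_neg (fun h => hc h.2.2)]
    symm
    apply vanish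
    obtain ⟨p, hp, hpg⟩ := Nat.exists_prime_and_dvd (fun h : Nat.gcd (e * A) f = 1 => hc h)
    have hpf : p ∣ f := hpg.trans (Nat.gcd_dvd_right _ _)
    refine ⟨p, hmemN p hp hpf, ?_⟩
    rw [wlo_f hpf, if_neg]
    rintro ⟨-, -, h1, h2, -⟩
    rcases hp.dvd_mul.1 (hpg.trans (Nat.gcd_dvd_left _ _)) with h | h
    · exact h1 h
    · exact h2 h
  have hcnd : (f1 f : ℤ) ^ 2 ∣ 4 * A * C - B ^ 2 ∧
      gdN N D0 ∧ Nat.Coprime (e * A) f := ⟨⟨D0, hD0⟩, hg, hc⟩
  rw [if_pos hcnd]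
  -- the products over all primes dividing `N`
  have panf : ∀ n : ℕ, anf N f n D0 = ∏ p ∈ N.primeFactors,
      if ¬ p ∣ f then (if p ∣ n then (-1 : ℝ) else 1 + (ch p D0 : ℝ) / p) else 1 := by
    intro n
    unfold anf
    rw [nfpf, Finset.prod_filter]
  have pd : d.primeFactors = N.primeFactors.filter (fun p => p ∣ f ∧ p ∣ d) := by
    ext p
    rw [Finset.mem_filter, Nat.mem_primeFactors, Nat.mem_primeFactors]
    constructor
    · rintro ⟨hp, h, -⟩
      exact ⟨⟨hp, hfN p hp (hpd p hp h), hN0⟩, hpd p hp h, h⟩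
    · rintro ⟨⟨hp, -, -⟩, -, h⟩
      exact ⟨hp, h, hd0⟩
  obtain ⟨d', hd'⟩ := hd
  have hrdd : rd f / d = d' := by rw [hd', Nat.mul_div_cancel_left _ (Nat.pos_of_ne_zero hd0)]
  have hd'0 : d' ≠ 0 := by
    rintro rfl
    rw [mul_zero] at hd'
    exact hrd0 hd'
  have hcopd : Nat.Coprime d d' := by
    rw [hd'] at rsq
    exact Nat.coprime_of_squarefree_mul rsq
  have pd2 : (rd f / d).primeFactors = N.primeFactors.filter (fun p => p ∣ f ∧ ¬ p ∣ d) := by
    rw [hrdd]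
    ext p
    rw [Finset.mem_filter, Nat.mem_primeFactors, Nat.mem_primeFactors]
    constructor
    · rintro ⟨hp, h, -⟩
      have hpf : p ∣ f := (hprd p hp).1 (by rw [hd']; exact Dvd.dvd.mul_left h _)
      refine ⟨⟨hp, hfN p hp hpf, hN0⟩, hpf, fun h' => ?_⟩
      exact hp.one_lt.ne' (Nat.dvd_one.1 (by
        have := Nat.dvd_gcd h' h
        rwa [hcopd] at this))
    · rintro ⟨⟨hp, -, -⟩, hpf, hnd⟩
      have h1 : p ∣ d * d' := by rw [← hd']; exact (hprd p hp).2 hpf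
      rcases hp.dvd_mul.1 h1 with h | h
      · exact absurd h hnd
      · exact ⟨hp, h, hd'0⟩
  have pNw : (n₁ * n₂).primeFactors = N.primeFactors.filter (fun p => p ∣ n₁ * n₂) := by
    have hnN : ∀ n : ℕ, n ∣ nf N f → n ∣ N := fun n h => h.trans ⟨rd f, nfmul.symm⟩
    ext p
    rw [Finset.mem_filter, Nat.mem_primeFactors, Nat.mem_primeFactors]
    constructor
    · rintro ⟨hp, hdv, _⟩
      refine ⟨⟨hp, ?_, hN0⟩, hdv⟩
      rcases (Nat.Prime.dvd_mul hp).mp hdv with h | h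
      · exact h.trans (hnN _ h₁)
      · exact h.trans (hnN _ h₂)
    · rintro ⟨⟨hp, _, _⟩, hdv⟩
      exact ⟨hp, hdv, mul_ne_zero hn₁ hn₂⟩
  rw [panf, panf]
  unfold Lam cfd Nw
  rw [pd, pd2, pNw, Finset.prod_filter, Finset.prod_filter, Finset.prod_filter]
  push_cast
  rw [← Finset.prod_mul_distrib, ← Finset.prod_mul_distrib, ← Finset.prod_mul_distrib,
    ← Finset.prod_mul_distrib, ← Finset.prod_mul_distrib]
  refine Finset.prod_congr rfl fun p hp => ?_
  have hp' := Nat.prime_of_mem_primeFactors hp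
  by_cases hpf : p ∣ f
  · -- `p` divides `f`
    obtain ⟨l1, l2, l3⟩ := locf p hp' hpf
    have hnn : ∀ n : ℕ, n ∣ nf N f → ¬ p ∣ n := by
      intro n hn h
      have h3 := Nat.dvd_gcd (h.trans hn) hpf
      rw [nfcop] at h3
      exact hp'.one_lt.ne' (Nat.dvd_one.1 h3)
    have hnp1 := hnn n₁ h₁
    have hnp2 := hnn n₂ h₂
    have hnp12 : ¬ p ∣ n₁ * n₂ := by
      intro h
      rcases hp'.dvd_mul.1 h with h | h
      · exact hnp1 h
      · exact hnp2 h
    have hpe : ¬ p ∣ e := by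
      intro h
      have h3 := Nat.dvd_gcd (Dvd.dvd.mul_right h A) hpf
      rw [hc] at h3
      exact hp'.one_lt.ne' (Nat.dvd_one.1 h3)
    have hpA : ¬ p ∣ A := by
      intro h
      have h3 := Nat.dvd_gcd (Dvd.dvd.mul_left h e) hpf
      rw [hc] at h3
      exact hp'.one_lt.ne' (Nat.dvd_one.1 h3)
    have hsta : sta f n₁ n₂ d p = if p ∣ d then 1 else 0 := by
      unfold sta
      rw [if_pos hpf]
    have hCd : sta f n₁ n₂ d p = 0 ∨ ¬ (p : ℤ) ∣ C := by
      rw [hsta]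
      by_cases h : p ∣ d
      · right
        intro hC
        have h4 : IsUnit (p : ℤ) := hcop.isUnit_of_dvd' hC (Int.natCast_dvd_natCast.2 h)
        have h5 := Int.isUnit_iff_natAbs_eq.1 h4
        rw [Int.natAbs_natCast] at h5
        exact hp'.one_lt.ne' h5
      · left
        rw [if_neg h]
    have hw : wlo f p (lam p) (sta f n₁ n₂ d p) e A B C = lam p (ch p D0) *
        (if (if p ∣ d then 1 else 0) = 0 then 1 - 1 / (npt f p (ch p D0) : ℝ)
          else -(1 / (npt f p (ch p D0) : ℝ))) := by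
      rw [wlo_f hpf, if_pos ⟨l1, l3.2 (hg p hp), hpe, hpA, hCd⟩, l2, hsta]
    rw [hw]
    unfold npD
    by_cases hpd2 : p ∣ d
    · simp [hpf, hpd2, hnp12, hnp1, hnp2]
    · simp [hpf, hpd2, hnp12, hnp1, hnp2]
  · -- `p` does not divide `f`
    obtain ⟨l2, l3⟩ := locn p hp' hpf
    have hsta : sta f n₁ n₂ d p = (if p ∣ n₁ then 1 else 0) + (if p ∣ n₂ then 1 else 0) := by
      unfold sta
      rw [if_neg hpf]
    have hw : wlo f p (lam p) (sta f n₁ n₂ d p) e A B C = lam p (ch p D0) *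
        (if (if p ∣ n₁ then 1 else 0) + (if p ∣ n₂ then 1 else 0) = 0 then
          (1 + (ch p D0 : ℝ) / p) ^ 2 else
          if (if p ∣ n₁ then 1 else 0) + (if p ∣ n₂ then 1 else 0) = 1 then
            -(1 + (ch p D0 : ℝ) / p) * N1 p A B C e else (N2 p A B C e : ℝ)) := by
      rw [wlo_n hpf, if_pos (l3.2 (hg p hp)), l2, hsta]
    rw [hw]
    by_cases h1 : p ∣ n₁
    · have h3 : p ∣ n₁ * n₂ := Dvd.dvd.mul_right h1 _
      by_cases h2 : p ∣ n₂
      · simp [hpf, h1, h2, h3]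
      · simp [hpf, h1, h2, h3]
        try ring
    · by_cases h2 : p ∣ n₂
      · have h3 : p ∣ n₁ * n₂ := Dvd.dvd.mul_left h2 _
        simp [hpf, h1, h2, h3]
        try ring
      · have h3 : ¬ p ∣ n₁ * n₂ := by
          intro h
          rcases (Nat.Prime.dvd_mul hp').mp h with h | h
          · exact h1 h
          · exact h2 h
        simp [hpf, h1, h2, h3]
        try ring

end Pool.Agent.H27.CF
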