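import Pool.Agent.H31.CF.U3
import Pool.Agent.H96.CN.LOP

/-!
# Complete family (`MP_347b49_nt`), row UKPR: the product of the local identities
-/

set_option autoImplicit false

open MeasureTheory Set Filter
open scoped Real Matrix MatrixGroups

namespace Pool.Agent.H27.CFU

open Pool.Agent.H31.CN Pool.Agent.H91.CF Pool.Agent.H31.CF
open Pool.Agent.H96.CN (Per sum_crt)

/-- the indicator of the lines -/
noncomputable def Fi (A B C x y : ℤ) (d : ℕ) (j : ℤ) : ℝ :=
  if IsCoprime (A * j ^ 2 + B * j + C) (d : ℤ) ∧ (d : ℤ) ∣ x - j * y then 1 else 0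

lemma card_Fi (A B C x y : ℤ) (d : ℕ) :
    ((((Finset.range d).filter (fun j : ℕ =>
        IsCoprime (A * (j : ℤ) ^ 2 + B * j + C) (d : ℤ) ∧ (d : ℤ) ∣ x - j * y)).card : ℕ) : ℝ) =
      ∑ j ∈ Finset.range d, Fi A B C x y d j := by
  rw [Finset.card_filter]
  push_cast
  refine Finset.sum_congr rfl fun j _ => ?_
  unfold Fi
  split_ifs <;> rfl

lemma Fi_per (A B C x y : ℤ) (d : ℕ) : Per d (Fi A B C x y d) := by
  intro a b hab
  obtain ⟨k, hk⟩ := hab
  have ha : a = b + d * k := by linear_combination hk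
  have h1 : IsCoprime (A * a ^ 2 + B * a + C) (d : ℤ) ↔
      IsCoprime (A * b ^ 2 + B * b + C) (d : ℤ) := by
    have e : A * a ^ 2 + B * a + C = (A * b ^ 2 + B * b + C) +
        (d : ℤ) * (2 * A * b * k + A * d * k ^ 2 + B * k) := by
      rw [ha]; ring
    rw [e, IsCoprime.add_mul_left_left_iff]
  have h2 : (d : ℤ) ∣ x - a * y ↔ (d : ℤ) ∣ x - b * y := by
    have e : x - a * y = (x - b * y) + (d : ℤ) * (-(k * y)) := by rw [ha]; ring
    rw [e]
    exact (dvd_add_left (Dvd.intro _ rfl))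
  unfold Fi
  rw [if_congr (and_congr h1 h2) rfl rfl]

lemma Fi_mul (A B C x y : ℤ) {m n : ℕ} (h : Nat.Coprime m n) (j : ℤ) :
    Fi A B C x y (m * n) j = Fi A B C x y m j * Fi A B C x y n j := by
  have h1 : IsCoprime (A * j ^ 2 + B * j + C) ((m * n : ℕ) : ℤ) ↔
      IsCoprime (A * j ^ 2 + B * j + C) (m : ℤ) ∧ IsCoprime (A * j ^ 2 + B * j + C) (n : ℤ) := by
    push_cast
    exact IsCoprime.mul_right_iff
  have h2 : ((m * n : ℕ) : ℤ) ∣ x - j * y ↔ (m : ℤ) ∣ x - j * y ∧ (n : ℤ) ∣ x - j * y := by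
    push_cast
    constructor
    · intro h3
      exact ⟨(Dvd.intro _ rfl).trans h3, (Dvd.intro_left _ rfl).trans h3⟩
    · rintro ⟨h3, h4⟩
      exact (Nat.isCoprime_iff_coprime.2 h).mul_dvd h3 h4
  unfold Fi
  rw [if_congr (and_congr h1 h2) rfl rfl]
  by_cases c1 : IsCoprime (A * j ^ 2 + B * j + C) (m : ℤ) <;>
  by_cases c2 : IsCoprime (A * j ^ 2 + B * j + C) (n : ℤ) <;>
  by_cases c3 : (m : ℤ) ∣ x - j * y <;> by_cases c4 : (n : ℤ) ∣ x - j * y <;>
  simp [c1, c2, c3, c4]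

lemma sum_Fi_prod (A B C x y : ℤ) (t : Finset ℕ) (ht : ∀ p ∈ t, p.Prime) :
    ∑ j ∈ Finset.range (∏ p ∈ t, p), Fi A B C x y (∏ p ∈ t, p) (j : ℤ) =
      ∏ p ∈ t, ∑ j ∈ Finset.range p, Fi A B C x y p (j : ℤ) := by
  classical
  induction t using Finset.induction_on with
  | empty =>
    simp [Fi, isCoprime_one_right]
  | insert q s hq ih =>
    rw [Finset.prod_insert hq, Finset.prod_insert hq]
    have hqp := ht q (Finset.mem_insert_self _ _)
    have hs : ∀ p ∈ s, p.Prime := fun p hp => ht p (Finset.mem_insert_of_mem hp)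
    have hc : Nat.Coprime q (∏ p ∈ s, p) := by
      refine Nat.Coprime.prod_right fun p hp => ?_
      exact (Nat.coprime_primes hqp (hs p hp)).2 (fun h => hq (h ▸ hp))
    rw [← ih hs, ← sum_crt q (∏ p ∈ s, p) hqp.pos hc _ _ (Fi_per A B C x y q)
      (Fi_per A B C x y _)]
    exact Finset.sum_congr rfl fun j _ => Fi_mul A B C x y hc j

lemma sum_divisors_sq {g : ℕ} (hg : Squarefree g) (F : ℕ → ℝ) :
    ∑ d ∈ g.divisors, F d = ∑ t ∈ g.primeFactors.powerset, F (∏ p ∈ t, p) := by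
  have hg0 : g ≠ 0 := hg.ne_zero
  refine Finset.sum_nbij' (fun d => d.primeFactors) (fun t => ∏ p ∈ t, p) ?_ ?_ ?_ ?_ ?_
  · intro d hd
    rw [Finset.mem_powerset]
    exact Nat.primeFactors_mono (Nat.dvd_of_mem_divisors hd) hg0
  · intro t ht
    rw [Finset.mem_powerset] at ht
    rw [Nat.mem_divisors]
    exact ⟨(Finset.prod_dvd_prod_of_subset _ _ _ ht).trans (Nat.prod_primeFactors_dvd g), hg0⟩
  · intro d hd
    exact Nat.prod_primeFactors_of_squarefree (hg.squarefree_of_dvd (Nat.dvd_of_mem_divisors hd))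
  · intro t ht
    rw [Finset.mem_powerset] at ht
    exact Nat.primeFactors_prod fun p hp => Nat.prime_of_mem_primeFactors (ht hp)
  · intro d hd
    rw [Nat.prod_primeFactors_of_squarefree (hg.squarefree_of_dvd (Nat.dvd_of_mem_divisors hd))]

lemma pf_div {g : ℕ} (hg : Squarefree g) {t : Finset ℕ} (ht : t ⊆ g.primeFactors) :
    (g / ∏ p ∈ t, p) = ∏ p ∈ g.primeFactors \ t, p := by
  have h1 : (∏ p ∈ g.primeFactors \ t, p) * ∏ p ∈ t, p = g := by
    rw [Finset.prod_sdiff ht, Nat.prod_primeFactors_of_squarefree hg]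
  have h0 : 0 < ∏ p ∈ t, p :=
    Finset.prod_pos fun p hp => (Nat.prime_of_mem_primeFactors (ht hp)).pos
  exact Nat.div_eq_of_eq_mul_left h0 h1.symm

/-- (KPR) the product of the local identities. -/
theorem pf_KPR (hKID : T_KID) : T_KPR := by
  intro g A B C x y hg hA
  have hg0 : g ≠ 0 := hg.ne_zero
  have hpA : ∀ p ∈ g.primeFactors, ¬ (p : ℤ) ∣ A := by
    intro p hp h
    have h1 : (p : ℤ) ∣ Int.gcd A g :=
      Int.dvd_coe_gcd h (Int.natCast_dvd_natCast.2 (Nat.dvd_of_mem_primeFactors hp))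
    rw [hA] at h1
    have h2 : p ∣ 1 := by exact_mod_cast h1
    exact (Nat.prime_of_mem_primeFactors hp).one_lt.ne' (Nat.dvd_one.1 h2)
  have hS : ∀ p : ℕ, p.Prime → ((((Finset.range p).filter (fun j : ℕ =>
        ¬ (p : ℤ) ∣ A * (j : ℤ) ^ 2 + B * j + C ∧ (p : ℤ) ∣ x - j * y)).card : ℕ) : ℝ) =
      ∑ j ∈ Finset.range p, Fi A B C x y p (j : ℤ) := by
    intro p hp
    rw [← card_Fi]
    congr 2
    refine Finset.filter_congr fun j _ => ?_
    have hpi : Prime (p : ℤ) := Nat.prime_iff_prime_int.1 hp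
    rw [isCoprime_comm, hpi.coprime_iff_not_dvd]
  have h1 : (∏ p ∈ g.primeFactors, (if (p : ℤ) ∣ A * x ^ 2 + B * x * y + C * y ^ 2 then 0 else
      (if (p : ℤ) ∣ y then (1 : ℝ) else 0) - 1 / np p A B C)) =
      ∏ p ∈ g.primeFactors, (-(1 / (np p A B C : ℝ)) *
        (∑ j ∈ Finset.range p, Fi A B C x y p (j : ℤ)) +
        (if (p : ℤ) ∣ y then 1 - 1 / (np p A B C : ℝ) else 0)) := by
    refine Finset.prod_congr rfl fun p hp => ?_
    rw [hKID p A B C x y (Nat.prime_of_mem_primeFactors hp) (hpA p hp),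
      hS p (Nat.prime_of_mem_primeFactors hp)]
    ring
  rw [h1, Finset.prod_add, sum_divisors_sq hg]
  refine Finset.sum_congr rfl fun t ht => ?_
  rw [Finset.mem_powerset] at ht
  have htp : ∀ p ∈ t, p.Prime := fun p hp => Nat.prime_of_mem_primeFactors (ht hp)
  have hsp : ∀ p ∈ g.primeFactors \ t, p.Prime := fun p hp =>
    Nat.prime_of_mem_primeFactors (Finset.mem_sdiff.1 hp).1
  rw [Finset.prod_mul_distrib, card_Fi, sum_Fi_prod A B C x y t htp]
  unfold cf
  rw [pf_div hg ht, Nat.primeFactors_prod htp, Nat.primeFactors_prod hsp]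
  have h2 : (((∏ p ∈ g.primeFactors \ t, p : ℕ)) : ℤ) ∣ y ↔
      ∀ p ∈ g.primeFactors \ t, (p : ℤ) ∣ y := by
    push_cast
    constructor
    · intro h p hp
      exact (Finset.dvd_prod_of_mem (fun p : ℕ => (p : ℤ)) hp).trans h
    · intro h
      refine Finset.prod_dvd_of_coprime ?_ h
      intro p hp r hr hpr
      exact Nat.isCoprime_iff_coprime.2 ((Nat.coprime_primes (hsp p hp) (hsp r hr)).2 hpr)
  by_cases hy : ∀ p ∈ g.primeFactors \ t, (p : ℤ) ∣ y
  · rw [if_pos (h2.2 hy)]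
    have h3 : ∏ p ∈ g.primeFactors \ t, (if (p : ℤ) ∣ y then 1 - 1 / (np p A B C : ℝ) else 0) =
        ∏ p ∈ g.primeFactors \ t, (1 - 1 / (np p A B C : ℝ)) :=
      Finset.prod_congr rfl fun p hp => if_pos (hy p hp)
    rw [h3]
    ring
  · rw [if_neg (fun h => hy (h2.1 h))]
    push Not at hy
    obtain ⟨p, hp, hpy⟩ := hy
    have h3 : ∏ p ∈ g.primeFactors \ t, (if (p : ℤ) ∣ y then 1 - 1 / (np p A B C : ℝ) else 0) =
        0 := Finset.prod_eq_zero hp (if_neg hpy)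
    rw [h3]
    ring

end Pool.Agent.H27.CFU
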