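import Pool.Agent.H31.CF.Defs
import Pool.Agent.H1.CN.MNR

/-!
# Complete family (`MP_347b49_nt`), row UMNF: the main term for fixed discriminant with an extra
constant
-/

set_option autoImplicit false

open MeasureTheory Set Filter
open scoped Real

namespace Pool.Agent.H27.CFU

open Pool.Agent.H31.CN Pool.Agent.H91.CF Pool.Agent.H31.CF
open Pool.Agent.H1.CN (Rp Ph_E sum_log E_sum)

theorem hs_indL (hSSA : T_SSA) (Δ : ℝ) (hΔ : 0 < Δ) (lm : ℝ) (c : ℝ) (hc : 0 < c) (a b : ℕ)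
    (ha : 1 ≤ a) (hb : 1 ≤ b) (k : ℝ) :
    HasSum (fun x : ℕ × ℕ => Vk ((x.1 : ℝ) ^ 2 * x.2 / (c * Real.sqrt Δ)) / ((x.1 : ℝ) * x.2) *
      (if a ∣ x.2 ∧ b ∣ x.1 then k else 0) * (Real.log (Real.sqrt Δ) - Real.log x.2 + lm + c0))
      (Ph (Real.log (Real.sqrt Δ)) (((k / ((a : ℝ) * b)) •
        E (Real.log a) (Real.log (a * (b : ℝ) ^ 2))) * E (-lm) (-Real.log c))) := by
  have ha0 : (0 : ℝ) < a := by exact_mod_cast ha
  have hb0 : (0 : ℝ) < b := by exact_mod_cast hb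
  have hs : 0 < Real.sqrt Δ := Real.sqrt_pos.2 hΔ
  rw [smul_mul_assoc, E_mul, map_smul, Ph_E, smul_eq_mul]
  set l := Real.log (Real.sqrt Δ) with hl
  set v := l - (Real.log (a * (b : ℝ) ^ 2) + -Real.log c) with hv
  have hev : Real.exp (-v) = a * (b : ℝ) ^ 2 / (c * Real.sqrt Δ) := by
    have : -v = Real.log (a * (b : ℝ) ^ 2 / (c * Real.sqrt Δ)) := by
      rw [Real.log_div (by positivity) (by positivity), Real.log_mul hc.ne' hs.ne', hv]
      ring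
    rw [this, Real.exp_log (by positivity)]
  have hsum := hSSA.1 v
  have hlog : ∀ x : ℕ × ℕ, 0 ≤ Real.log x.2 := fun x => Real.log_natCast_nonneg x.2
  have hs0 : Summable (fun x : ℕ × ℕ => Vk ((x.1 : ℝ) ^ 2 * x.2 * Real.exp (-v)) /
      ((x.1 : ℝ) * x.2)) := by
    refine Summable.of_norm_bounded hsum fun x => ?_
    rw [Real.norm_eq_abs, mul_div_right_comm, abs_mul]
    refine le_mul_of_one_le_right (abs_nonneg _) ?_
    rw [abs_of_nonneg (by linarith [hlog x])]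
    linarith [hlog x]
  have hs1 : Summable (fun x : ℕ × ℕ => Vk ((x.1 : ℝ) ^ 2 * x.2 * Real.exp (-v)) *
      Real.log x.2 / ((x.1 : ℝ) * x.2)) := by
    refine Summable.of_norm_bounded hsum fun x => ?_
    rw [Real.norm_eq_abs, mul_div_right_comm, abs_mul, mul_div_right_comm, abs_mul]
    refine mul_le_mul_of_nonneg_left ?_ (abs_nonneg _)
    rw [abs_of_nonneg (hlog x), abs_of_nonneg (by linarith [hlog x])]
    linarith
  have hS : HasSum (fun x : ℕ × ℕ => k / ((a : ℝ) * b) * ((l - (Real.log a + -lm) + c0) *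
      (Vk ((x.1 : ℝ) ^ 2 * x.2 * Real.exp (-v)) / ((x.1 : ℝ) * x.2)) -
      Vk ((x.1 : ℝ) ^ 2 * x.2 * Real.exp (-v)) * Real.log x.2 / ((x.1 : ℝ) * x.2)))
      (k / ((a : ℝ) * b) * SS (l - (Real.log a + -lm)) v) :=
    ((hs0.hasSum.mul_left _).sub hs1.hasSum).mul_left _
  have hg : Function.Injective (fun x : ℕ × ℕ => (b * x.1, a * x.2)) := by
    rintro ⟨x1, x2⟩ ⟨y1, y2⟩ h
    simp only [Prod.mk.injEq] at h
    rw [Prod.mk.injEq]
    exact ⟨Nat.eq_of_mul_eq_mul_left hb h.1, Nat.eq_of_mul_eq_mul_left ha h.2⟩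
  refine (hg.hasSum_iff ?_).1 ?_
  · rintro ⟨x1, x2⟩ hx
    have : ¬ (a ∣ x2 ∧ b ∣ x1) := by
      rintro ⟨⟨u, rfl⟩, ⟨t, rfl⟩⟩
      exact hx ⟨(t, u), rfl⟩
    simp [this]
  · refine hS.congr_fun ?_
    rintro ⟨x1, x2⟩
    simp only [Function.comp]
    rw [if_pos ⟨Nat.dvd_mul_right _ _, Nat.dvd_mul_right _ _⟩]
    rcases Nat.eq_zero_or_pos x1 with rfl | h1
    · simp
    rcases Nat.eq_zero_or_pos x2 with rfl | h2
    · simp
    have h10 : (0 : ℝ) < x1 := by exact_mod_cast h1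
    have h20 : (0 : ℝ) < x2 := by exact_mod_cast h2
    push_cast
    have e1 : ((b : ℝ) * x1) ^ 2 * (a * x2) / (c * Real.sqrt Δ) =
        (x1 : ℝ) ^ 2 * x2 * Real.exp (-v) := by
      rw [hev]
      ring
    rw [e1, Real.log_mul ha0.ne' h20.ne']
    field_simp
    ring

theorem hs_RpL (hSSA : T_SSA) (Δ : ℝ) (hΔ : 0 < Δ) (lm : ℝ) (c : ℝ) (hc : 0 < c) {N : ℕ}
    {W : ℕ → ℕ → ℝ} {r : GR} (h : Rp N W r) :
    HasSum (fun x : ℕ × ℕ => Vk ((x.1 : ℝ) ^ 2 * x.2 / (c * Real.sqrt Δ)) / ((x.1 : ℝ) * x.2) *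
      W x.1 x.2 * (Real.log (Real.sqrt Δ) - Real.log x.2 + lm + c0))
      (Ph (Real.log (Real.sqrt Δ)) (r * E (-lm) (-Real.log c))) := by
  induction h with
  | zero h =>
    rw [zero_mul, map_zero]
    simp only [h, mul_zero, zero_mul]
    exact hasSum_zero
  | ind a b k ha hb _ _ hW =>
    simp only [hW]
    exact hs_indL hSSA Δ hΔ lm c hc a b ha hb k
  | add _ _ hW ih ih' =>
    rw [add_mul, map_add]
    refine (ih.add ih').congr_fun fun x => ?_
    rw [hW]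
    ring

/-- (MNf) the main term for fixed discriminant. -/
theorem pf_MNf (hSSA : T_SSA) : T_MNf := by
  classical
  intro q n g d m₁ m₂ w T f Δ hn hg hd h1 h2 hT hTc hΔ hw
  set lm := Real.log ((g : ℝ) / (d : ℝ) ^ 2) with hlm
  have h10 : (0 : ℝ) < m₁ := by exact_mod_cast Nat.pos_of_ne_zero h1.ne_zero
  have h20 : (0 : ℝ) < m₂ := by exact_mod_cast Nat.pos_of_ne_zero h2.ne_zero
  have hn0 : (0 : ℝ) < n := by exact_mod_cast hn
  have hRp0 : Rp (∏ p ∈ (m₁ * m₂).primeFactors, p)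
      (fun e A => ∑ x ∈ T, if x.1 ∣ A ∧ x.2 ∣ e then f x else 0)
      (∑ x ∈ T, (f x / ((x.1 : ℝ) * x.2)) • E (Real.log x.1) (Real.log (x.1 * (x.2 : ℝ) ^ 2))) := by
    refine Rp.sum T (fun x e A => if x.1 ∣ A ∧ x.2 ∣ e then f x else 0) _ fun x hx => ?_
    exact Rp.ind x.1 x.2 (f x) (hT x hx).1 (hT x hx).2
      ((hTc x hx).1.coprime_dvd_right (Nat.prod_primeFactors_dvd _))
      ((hTc x hx).2.coprime_dvd_right (Nat.prod_primeFactors_dvd _)) fun e A => rfl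
  have hRp1 := Rp.prod m₁ m₂ _ (fun p hp => Nat.prime_of_mem_primeFactors hp) _ _ hRp0
  have hRp2 := hs_RpL hSSA Δ hΔ lm ((n : ℝ) * m₁ * m₂) (by positivity) hRp1
  have hka : ∏ p ∈ (m₁ * m₂).primeFactors, (if p ∣ m₁ ∧ p ∣ m₂ then
      E 0 (2 * Real.log p) * (et p + al p ^ 2) else E 0 (Real.log p) * al p) =
      E 0 (Real.log m₁ + Real.log m₂) * ka m₁ m₂ := by
    unfold ka
    rw [← sum_log m₁ m₂ h1 h2, ← E_sum, ← Finset.prod_mul_distrib]
    refine Finset.prod_congr rfl fun p _ => ?_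
    split_ifs <;> rfl
  have hr : (∑ x ∈ T, (f x / ((x.1 : ℝ) * x.2)) •
      E (Real.log x.1) (Real.log (x.1 * (x.2 : ℝ) ^ 2))) * E (-lm) (-Real.log n) =
      ∑ x ∈ T, (f x / ((x.1 : ℝ) * x.2)) •
        E (Real.log x.1 - lm) (Real.log (x.1 * (x.2 : ℝ) ^ 2 / n)) := by
    rw [Finset.sum_mul]
    refine Finset.sum_congr rfl fun x hx => ?_
    have hx1 : (0 : ℝ) < x.1 := by exact_mod_cast (hT x hx).1
    have hx2 : (0 : ℝ) < x.2 := by exact_mod_cast (hT x hx).2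
    rw [smul_mul_assoc, E_mul, Real.log_div (by positivity) hn0.ne', sub_eq_add_neg,
      sub_eq_add_neg]
  have hE : E 0 (Real.log m₁ + Real.log m₂) * E (-lm) (-Real.log ((n : ℝ) * m₁ * m₂)) =
      E (-lm) (-Real.log n) := by
    rw [E_mul, Real.log_mul (by positivity) h20.ne', Real.log_mul hn0.ne' h10.ne']
    congr 1 <;> ring
  rw [hka] at hRp2
  rw [← hr]
  have hfin : ∀ r k : GR, r * (E 0 (Real.log m₁ + Real.log m₂) * k) *
      E (-lm) (-Real.log ((n : ℝ) * m₁ * m₂)) = r * E (-lm) (-Real.log n) * k := by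
    intro r k
    rw [← hE]
    ring
  rw [hfin] at hRp2
  rw [← hRp2.tsum_eq]
  unfold Mng
  rw [← hlm]
  refine tsum_congr ?_
  rintro ⟨e, A⟩
  rcases Nat.eq_zero_or_pos e with rfl | he
  · simp
  rcases Nat.eq_zero_or_pos A with rfl | hA
  · simp
  have he0 : (0 : ℝ) < e := by exact_mod_cast he
  have hA0 : (0 : ℝ) < A := by exact_mod_cast hA
  have hsD : 0 < Real.sqrt Δ := Real.sqrt_pos.2 hΔ
  have hsq : Real.sqrt ((e : ℝ) ^ 2 * A) = e * Real.sqrt A := by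
    rw [Real.sqrt_mul (by positivity), Real.sqrt_sq he0.le]
  have hAs : Real.sqrt (A : ℝ) * Real.sqrt A = A := Real.mul_self_sqrt hA0.le
  simp only
  rw [hw e A he hA, hsq]
  unfold Nb
  rw [Real.log_div hsD.ne' hA0.ne']
  have hsA : 0 < Real.sqrt (A : ℝ) := Real.sqrt_pos.2 hA0
  have : ∀ V W N L : ℝ, V / (e * Real.sqrt A) * W * N * (L / Real.sqrt A) =
      V / ((e : ℝ) * A) * (W * N) * L := by
    intro V W N L
    conv_rhs => rw [← hAs]
    field_simp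
  rw [this]

end Pool.Agent.H27.CFU
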